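import Mathlib

/-
Two counting lemmas.
-/

namespace Pool.Agent.MP_66cee2_co.H94U

open Finset

theorem cover {Ω X : Type} [Fintype Ω] [Fintype X] [Nonempty Ω] (R : Ω → X → Prop) (p : ℝ)
    (N : ℕ) (hp : ∀ x, ∃ S : Finset Ω, (∀ ω ∈ S, R ω x) ∧ p * Fintype.card Ω ≤ #S)
    (hN : (Fintype.card X : ℝ) * (1 - p) ^ N < 1) :
    ∃ ω : Fin N → Ω, ∀ x, ∃ t, R (ω t) x := by
  classical
  by_contra hc
  push Not at hc
  choose S hS hcard using hp
  have hsub : (univ : Finset (Fin N → Ω)) ⊆
      univ.biUnion fun x => Fintype.piFinset fun _ : Fin N => (S x)ᶜ := by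
    intro ω _
    obtain ⟨x, hx⟩ := hc ω
    refine mem_biUnion.2 ⟨x, mem_univ _, Fintype.mem_piFinset.2 fun t => ?_⟩
    exact mem_compl.2 fun h => hx t (hS x _ h)
  have h1 := (card_le_card hsub).trans card_biUnion_le
  simp only [Fintype.card_piFinset, prod_const, card_univ, Fintype.card_fin,
    Fintype.card_fun] at h1
  have h2 : ((Fintype.card Ω : ℝ)) ^ N ≤ ∑ x, ((#(S x)ᶜ : ℕ) : ℝ) ^ N := by exact_mod_cast h1
  have h3 : ∀ x, ((#(S x)ᶜ : ℕ) : ℝ) ^ N ≤ ((1 - p) * Fintype.card Ω) ^ N := fun x => by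
    refine pow_le_pow_left₀ (Nat.cast_nonneg _) ?_ N
    have e : (#(S x) : ℝ) + (#(S x)ᶜ : ℕ) = Fintype.card Ω := by
      exact_mod_cast card_add_card_compl (S x)
    have := hcard x
    linarith
  have h4 := h2.trans (sum_le_sum fun x _ => h3 x)
  simp only [sum_const, card_univ, nsmul_eq_mul, mul_pow] at h4
  have h5 : (0 : ℝ) < (Fintype.card Ω : ℝ) ^ N := by
    have : 0 < Fintype.card Ω := Fintype.card_pos
    positivity
  nlinarith

theorem config {G : Type} [Fintype G] [DecidableEq G] [Nonempty G] (A : Finset G)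
    (B : G → Finset G) (V : ℝ) (hV : 0 < V) (hA : ∀ a ∈ A, A ⊆ B a)
    (hB : ∀ a ∈ A, (#(B a) : ℝ) ≤ V) (m : ℕ) (h1 : (Fintype.card G : ℝ) ≤ 2 * V * (m + 1))
    (h2 : 2 * V * m ≤ Fintype.card G) :
    ∃ S : Finset (Fin (m + 1) → G),
      (∀ ω ∈ S, ∃ i, ω i ∈ A ∧ ∀ j, j ≠ i → ω j ∉ B (ω i)) ∧
      (#A : ℝ) / (4 * V) * Fintype.card (Fin (m + 1) → G) ≤ #S := by
  classical
  let F : Fin (m + 1) × G → Finset (Fin (m + 1) → G) := fun q =>
    Fintype.piFinset fun j => if j = q.1 then {q.2} else (B q.2)ᶜ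
  have hF : ∀ q ω, ω ∈ F q → ω q.1 = q.2 ∧ ∀ j, j ≠ q.1 → ω j ∉ B q.2 := by
    intro q ω h
    have h' := Fintype.mem_piFinset.1 h
    refine ⟨by simpa using h' q.1, fun j hj => ?_⟩
    simpa [hj] using h' j
  have hg : (0 : ℝ) < Fintype.card G := by
    have : 0 < Fintype.card G := Fintype.card_pos
    positivity
  refine ⟨(univ ×ˢ A).biUnion F, ?_, ?_⟩
  · intro ω h
    obtain ⟨q, hq, hω⟩ := mem_biUnion.1 h
    obtain ⟨a, b⟩ := hF q ω hω
    exact ⟨q.1, a ▸ (mem_product.1 hq).2, a ▸ b⟩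
  · rw [card_biUnion]
    · have hc : ∀ q ∈ univ ×ˢ A, (Fintype.card G : ℝ) ^ m / 2 ≤ (#(F q) : ℝ) := by
        intro q hq
        have e : #(F q) = #(B q.2)ᶜ ^ m := by
          simp only [F, Fintype.card_piFinset]
          rw [← mul_prod_erase _ _ (mem_univ q.1), prod_congr rfl
            (g := fun _ => #(B q.2)ᶜ) (fun j hj => by rw [if_neg (ne_of_mem_erase hj)])]
          simp
        rw [e]
        push_cast
        have e2 : (#(B q.2) : ℝ) + (#(B q.2)ᶜ : ℕ) = Fintype.card G := by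
          exact_mod_cast card_add_card_compl (B q.2)
        have hb := hB q.2 (mem_product.1 hq).2
        set g : ℝ := ((Fintype.card G : ℕ) : ℝ)
        set y : ℝ := ((#(B q.2)ᶜ : ℕ) : ℝ)
        have hy : 0 ≤ y := Nat.cast_nonneg _
        have hyg : 0 ≤ y / g := by positivity
        have b1 := one_add_mul_le_pow (a := y / g - 1) (by linarith) m
        have b2 : -(V / g) ≤ y / g - 1 := by
          have : (g - V) / g ≤ y / g := div_le_div_of_nonneg_right (by linarith) hg.le
          rw [sub_div, div_self hg.ne'] at this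
          linarith
        have b3 : (m : ℝ) * (V / g) ≤ 1 / 2 := by
          rw [← mul_div_assoc, div_le_iff₀ hg]; linarith
        have b4 := mul_le_mul_of_nonneg_left b2 (Nat.cast_nonneg (α := ℝ) m)
        have b5 : (1 / 2 : ℝ) ≤ (y / g) ^ m := by
          have : 1 + (y / g - 1) = y / g := by ring
          rw [this] at b1
          linarith
        rw [div_pow, le_div_iff₀ (by positivity)] at b5
        linarith
      have hs := card_nsmul_le_sum _ _ _ hc
      push_cast
      refine le_trans ?_ hs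
      simp only [card_product, card_univ, Fintype.card_fin, nsmul_eq_mul, Fintype.card_fun]
      push_cast
      rw [div_mul_eq_mul_div, div_le_iff₀ (by positivity), pow_succ]
      have : (0 : ℝ) ≤ #A * (Fintype.card G : ℝ) ^ m := by positivity
      nlinarith [mul_le_mul_of_nonneg_left h1 this]
    · intro q hq q' hq' hne
      refine disjoint_left.2 fun ω h h' => ?_
      obtain ⟨a, b⟩ := hF q ω h
      obtain ⟨a', b'⟩ := hF q' ω h'
      by_cases hi : q'.1 = q.1
      · exact hne (Prod.ext hi.symm (by rw [← a, ← a', hi]))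
      · refine b q'.1 hi (hA _ (mem_product.1 hq).2 ?_)
        rw [a']
        exact (mem_product.1 hq').2

end Pool.Agent.MP_66cee2_co.H94U
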