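import Mathlib

/-
Grid points, cells and balls.
-/

namespace Pool.Agent.MP_66cee2_co.H94U

open Finset MeasureTheory Metric

/-- Euclidean space. -/
abbrev E (d : ℕ) := EuclideanSpace ℝ (Fin d)

variable {d : ℕ}

/-- the grid point. -/
noncomputable def pt (h : ℝ) (k : Fin d → ℤ) : E d := WithLp.toLp 2 fun i => h * (k i : ℝ)

/-- the cell of a point. -/
noncomputable def kap (h : ℝ) (y : E d) : Fin d → ℤ := fun i => ⌊y i / h⌋

/-- reduction of a grid index. -/
def pr (K : ℕ) (k : Fin d → ℤ) : Fin d → ZMod K := fun i => (k i : ZMod K)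

theorem pt_apply (h : ℝ) (k : Fin d → ℤ) (i : Fin d) : pt h k i = h * (k i : ℝ) := rfl

theorem pt_add (h : ℝ) (k l : Fin d → ℤ) : pt h (k + l) = pt h k + pt h l := by
  ext i
  simp [pt_apply, mul_add]

theorem pt_sub (h : ℝ) (k l : Fin d → ℤ) : pt h (k - l) = pt h k - pt h l := by
  ext i
  simp [pt_apply, mul_sub]

theorem pr_add (K : ℕ) (k l : Fin d → ℤ) : pr K (k + l) = pr K k + pr K l := by
  ext i
  simp [pr]

theorem pr_sub (K : ℕ) (k l : Fin d → ℤ) : pr K (k - l) = pr K k - pr K l := by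
  ext i
  simp [pr]

theorem pr_surj (K : ℕ) (g : Fin d → ZMod K) : ∃ k, pr K k = g :=
  ⟨fun i => (ZMod.intCast_surjective (g i)).choose,
    funext fun i => (ZMod.intCast_surjective (g i)).choose_spec⟩

theorem near {h : ℝ} (hh : 0 < h) (y : E d) : ‖y - pt h (kap h y)‖ ≤ h * d := by
  rw [EuclideanSpace.norm_eq, Real.sqrt_le_iff]
  refine ⟨by positivity, ?_⟩
  have h1 : ∀ i, ‖(y - pt h (kap h y)) i‖ ^ 2 ≤ h ^ 2 := fun i => by
    have a := Int.floor_le (y i / h)
    have b := Int.lt_floor_add_one (y i / h)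
    rw [le_div_iff₀ hh] at a
    rw [div_lt_iff₀ hh] at b
    have e : (y - pt h (kap h y)) i = y i - h * (⌊y i / h⌋ : ℝ) := rfl
    rw [e, Real.norm_eq_abs, sq_abs]
    nlinarith
  refine (sum_le_sum fun i _ => h1 i).trans ?_
  simp only [sum_const, card_univ, Fintype.card_fin, nsmul_eq_mul]
  have : (d : ℝ) ≤ (d : ℝ) ^ 2 := by exact_mod_cast Nat.le_self_pow two_ne_zero d
  nlinarith [mul_le_mul_of_nonneg_left this (sq_nonneg h)]

theorem kap_add {h : ℝ} (hh : 0 < h) (y : E d) (k : Fin d → ℤ) :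
    kap h (y + pt h k) = kap h y + k := by
  ext i
  have e : (y + pt h k) i / h = y i / h + (k i : ℝ) := by
    have : (y + pt h k) i = y i + h * (k i : ℝ) := rfl
    rw [this]; field_simp
  simp only [kap, e, Int.floor_add_intCast, Pi.add_apply]

theorem meas_kap (h : ℝ) : Measurable (kap h : E d → Fin d → ℤ) :=
  measurable_pi_lambda _ fun i => Measurable.floor (by fun_prop)

theorem cell_eq {h : ℝ} (hh : 0 < h) (k : Fin d → ℤ) :
    volume.real (kap h ⁻¹' {k} : Set (E d)) =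
      volume.real (kap h ⁻¹' {(0 : Fin d → ℤ)} : Set (E d)) := by
  have e : (kap h ⁻¹' {(0 : Fin d → ℤ)} : Set (E d)) =
      (fun y => y + pt h k) ⁻¹' (kap h ⁻¹' {k}) := by
    ext y
    simp [kap_add hh]
  rw [e, measureReal_def, measureReal_def, measure_preimage_add_right]

theorem cell_fin {h : ℝ} (hh : 0 < h) (k : Fin d → ℤ) :
    volume (kap h ⁻¹' {k} : Set (E d)) ≠ ⊤ := by
  refine ((measure_mono (t := closedBall (pt h k) (h * d)) fun y hy => ?_).trans_lt
    measure_closedBall_lt_top).ne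
  have e : kap h y = k := hy
  rw [mem_closedBall, dist_eq_norm, ← e]
  exact near hh y

theorem cells {h : ℝ} (hh : 0 < h) (S : Finset (Fin d → ℤ)) :
    volume.real (kap h ⁻¹' (S : Set (Fin d → ℤ)) : Set (E d)) =
      #S * volume.real (kap h ⁻¹' {(0 : Fin d → ℤ)} : Set (E d)) := by
  rw [← sum_measureReal_preimage_singleton S
    (fun k _ => meas_kap h (measurableSet_singleton k)) (fun k _ => cell_fin hh k)]
  simp [cell_eq hh]

theorem cells_fin {h : ℝ} (hh : 0 < h) (S : Finset (Fin d → ℤ)) :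
    volume (kap h ⁻¹' (S : Set (Fin d → ℤ)) : Set (E d)) ≠ ⊤ := by
  rw [← sum_measure_preimage_singleton S (fun k _ => meas_kap h (measurableSet_singleton k))]
  exact ENNReal.sum_ne_top.2 fun k _ => cell_fin hh k

theorem vol_ball (z : E d) {R : ℝ} (hR : 0 ≤ R) :
    volume.real (closedBall z R) = R ^ d * volume.real (closedBall (0 : E d) 1) := by
  rw [Measure.addHaar_real_closedBall' volume z hR, finrank_euclideanSpace_fin]

theorem count_up {h δ R : ℝ} (hh : 0 < h) (hδ : h * d ≤ δ) (hR : 0 ≤ R + δ) (z : E d)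
    (S : Finset (Fin d → ℤ)) (hS : ∀ c ∈ S, ‖pt h c - z‖ ≤ R) :
    #S * volume.real (kap h ⁻¹' {(0 : Fin d → ℤ)} : Set (E d)) ≤
      (R + δ) ^ d * volume.real (closedBall (0 : E d) 1) := by
  rw [← cells hh, ← vol_ball z hR]
  refine measureReal_mono (fun y hy => ?_) measure_closedBall_lt_top.ne
  have a := hS _ hy
  have b := near hh y
  have c := norm_sub_le_norm_sub_add_norm_sub y (pt h (kap h y)) z
  rw [mem_closedBall, dist_eq_norm]
  linarith

theorem count_lo {h δ R : ℝ} (hh : 0 < h) (hδ : h * d ≤ δ) (hR : 0 ≤ R) (z : E d)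
    (S : Finset (Fin d → ℤ)) (hS : ∀ c, ‖pt h c - z‖ ≤ R + δ → c ∈ S) :
    R ^ d * volume.real (closedBall (0 : E d) 1) ≤
      #S * volume.real (kap h ⁻¹' {(0 : Fin d → ℤ)} : Set (E d)) := by
  rw [← cells hh, ← vol_ball z hR]
  refine measureReal_mono (fun y hy => hS _ ?_) (cells_fin hh S)
  rw [mem_closedBall, dist_eq_norm] at hy
  have b := near hh y
  have c := norm_sub_le_norm_sub_add_norm_sub (pt h (kap h y)) y z
  rw [norm_sub_rev] at b
  linarith

theorem fin_ball {h : ℝ} (hh : 0 < h) (z : E d) (R : ℝ) :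
    ∃ S : Finset (Fin d → ℤ), ∀ c, c ∈ S ↔ ‖pt h c - z‖ ≤ R := by
  have : {c : Fin d → ℤ | ‖pt h c - z‖ ≤ R}.Finite := by
    refine (Set.Finite.pi (t := fun i => Set.Icc ⌊(z i - R) / h⌋ ⌈(z i + R) / h⌉)
      fun i => Set.finite_Icc _ _).subset fun c hc i _ => ?_
    have a := (PiLp.norm_apply_le (pt h c - z) i).trans hc
    have e : (pt h c - z) i = h * (c i : ℝ) - z i := rfl
    rw [e, Real.norm_eq_abs, abs_le] at a
    constructor
    · rw [Int.floor_le_iff, div_lt_iff₀ hh]; nlinarith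
    · rw [Int.le_ceil_iff, lt_div_iff₀ hh]; nlinarith
  exact ⟨this.toFinset, fun c => by simp⟩

theorem sep {h : ℝ} (hh : 0 < h) {K : ℕ} {c c' : Fin d → ℤ} (e : pr K c = pr K c')
    (hne : c' ≠ c) : h * K ≤ ‖pt h c' - pt h c‖ := by
  obtain ⟨i, hi⟩ := Function.ne_iff.1 hne
  have a : (K : ℤ) ∣ c' i - c i :=
    (ZMod.intCast_eq_intCast_iff_dvd_sub _ _ _).1 (congrFun e i)
  have b : (K : ℤ) ≤ |c' i - c i| :=
    Int.le_of_dvd (abs_pos.2 (sub_ne_zero.2 hi)) ((dvd_abs _ _).2 a)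
  have b' : (K : ℝ) ≤ |(c' i : ℝ) - c i| := by exact_mod_cast b
  refine le_trans ?_ (PiLp.norm_apply_le _ i)
  have e2 : (pt h c' - pt h c) i = h * ((c' i : ℝ) - c i) := by
    have : (pt h c' - pt h c) i = h * (c' i : ℝ) - h * (c i : ℝ) := rfl
    rw [this]; ring
  rw [e2, Real.norm_eq_abs, abs_mul, abs_of_pos hh]
  exact mul_le_mul_of_nonneg_left b' hh.le

end Pool.Agent.MP_66cee2_co.H94U
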