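import Pool.Agent.MP_66cee2_co.H94U.Comb
import Pool.Agent.MP_66cee2_co.H94U.Grid

/-
Periodic random centres, the colouring and the map.
-/

namespace Pool.Agent.MP_66cee2_co.H94U

open Finset MeasureTheory Metric Filter Topology

variable {d : ℕ}

/-- the grid point `k` belongs to a centre and is far on the side of that centre. -/
def Good (h s r : ℝ) (K : ℕ) {ι : Type} (ω : ι → Fin d → ZMod K) (k : Fin d → ℤ) : Prop :=
  ∃ c, (∃ i, pr K c = ω i) ∧ ‖pt h k - pt h c‖ ≤ r ∧ ∀ c', (∃ j, pr K c' = ω j) → c' ≠ c →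
    s * ‖pt h c' - pt h c‖ <
      ‖pt h c' - pt h c‖ ^ 2 - 2 * inner ℝ (pt h k - pt h c) (pt h c' - pt h c)

theorem period {h s r : ℝ} {K : ℕ} {ι : Type} {ω : ι → Fin d → ZMod K} {k l : Fin d → ℤ}
    (e : pr K k = pr K l) (hk : Good h s r K ω k) : Good h s r K ω l := by
  obtain ⟨c, ⟨i, hi⟩, h1, h2⟩ := hk
  have e1 : pt h l - pt h (c + (l - k)) = pt h k - pt h c := by
    rw [pt_add, pt_sub]; abel
  refine ⟨c + (l - k), ⟨i, by rw [pr_add, pr_sub, e, sub_self, add_zero, hi]⟩, by rwa [e1], ?_⟩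
  rintro c' ⟨j, hj⟩ hne
  have e2 : pt h c' - pt h (c + (l - k)) = pt h (c' - (l - k)) - pt h c := by
    rw [pt_add, pt_sub, pt_sub, pt_sub]; abel
  rw [e1, e2]
  refine h2 _ ⟨j, by rw [pr_sub, pr_sub, e, sub_self, sub_zero, hj]⟩ fun hc => hne ?_
  rw [← hc]; abel

theorem apart {h s r : ℝ} {K : ℕ} {ι : Type} {ω : ι → Fin d → ZMod K} {k l : Fin d → ℤ}
    (hk : Good h s r K ω k) (hl : Good h s r K ω l) :
    ‖pt h k - pt h l‖ ≤ 2 * r ∨ s < ‖pt h k - pt h l‖ := by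
  obtain ⟨c, hc, h1, h2⟩ := hk
  obtain ⟨c', hc', h1', h2'⟩ := hl
  by_cases e : c' = c
  · left
    subst e
    have := norm_sub_le_norm_sub_add_norm_sub (pt h k) (pt h c') (pt h l)
    rw [norm_sub_rev] at h1'
    linarith
  · right
    have a := h2 c' hc' e
    have b := h2' c hc (Ne.symm e)
    set w := pt h c' - pt h c with hw
    have e1 : pt h c - pt h c' = -w := by rw [hw]; abel
    have e2 : pt h l - pt h c' = (pt h k - pt h c) - w - (pt h k - pt h l) := by rw [hw]; abel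
    rw [e1, e2, norm_neg, inner_neg_right, inner_sub_left, inner_sub_left,
      real_inner_self_eq_norm_sq] at b
    have c1 := abs_real_inner_le_norm (pt h k - pt h l) w
    have c2 := neg_abs_le (inner ℝ (pt h k - pt h l) w)
    by_contra hn
    push Not at hn
    have c3 := mul_le_mul_of_nonneg_right hn (norm_nonneg w)
    linarith

theorem bad {u w : E d} {s r ρ : ℝ} (hu : ‖u‖ ≤ r) (hr : 2 * r ≤ s) (hρ : 0 ≤ ρ)
    (h1 : 27 * s ^ 2 ≤ 16 * ρ ^ 2) (h : ‖w‖ ^ 2 - 2 * inner ℝ u w ≤ s * ‖w‖) :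
    ‖w - (3 / 2 : ℝ) • u‖ ≤ ρ := by
  refine (pow_le_pow_iff_left₀ (norm_nonneg _) hρ two_ne_zero).1 ?_
  rw [norm_sub_sq_real, inner_smul_right, norm_smul, real_inner_comm]
  have a := norm_nonneg u
  have b : ‖u‖ ^ 2 ≤ (s / 2) ^ 2 := pow_le_pow_left₀ a (by linarith) 2
  have e : ‖(3 / 2 : ℝ)‖ = 3 / 2 := by norm_num
  rw [e]
  nlinarith [sq_nonneg (‖w‖ - 3 * s / 2)]

theorem many {h δ s r ρ : ℝ} {K : ℕ} [NeZero K] (hh : 0 < h) (hδ : h * d ≤ δ) (hδ0 : 0 < δ)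
    (hK : 4 ≤ h * K) (hr : 2 * r ≤ s) (hrδ : δ < r) (hs : s ≤ 2) (hρ : 3 * r ≤ 2 * ρ)
    (hρ2 : ρ ≤ 2) (h1 : 27 * s ^ 2 ≤ 16 * ρ ^ 2) :
    ∃ m : ℕ, ∀ k : Fin d → ℤ, ∃ S : Finset (Fin (m + 1) → Fin d → ZMod K),
      (∀ ω ∈ S, Good h s r K ω k) ∧
      ((r - δ) / (ρ + δ)) ^ d / 4 * Fintype.card (Fin (m + 1) → Fin d → ZMod K) ≤ #S := by
  classical
  set w := volume.real (kap h ⁻¹' {(0 : Fin d → ℤ)} : Set (E d)) with hw
  set u := volume.real (closedBall (0 : E d) 1) with hu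
  have hu0 : 0 < u := ENNReal.toReal_pos (measure_closedBall_pos volume _ one_pos).ne'
    measure_closedBall_lt_top.ne
  have hρ0 : 0 < ρ := by linarith
  have hrd : 0 < r - δ := by linarith
  choose bl hbl using fun (z : E d) (R : ℝ) => fin_ball (d := d) hh z R
  have lo : ∀ z, (r - δ) ^ d * u ≤ #(bl z r) * w := fun z =>
    count_lo hh hδ hrd.le z _ fun c hc => (hbl z r c).2 (by linarith)
  have up : ∀ z, #(bl z ρ) * w ≤ (ρ + δ) ^ d * u := fun z =>
    count_up hh hδ (by linarith) z _ fun c hc => (hbl z ρ c).1 hc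
  have hw0 : 0 < w := by
    have a := lo 0
    have b : 0 < (r - δ) ^ d * u := by positivity
    by_contra hn
    have c : w = 0 := le_antisymm (not_lt.1 hn) measureReal_nonneg
    rw [c] at a
    linarith
  set V := (ρ + δ) ^ d * u / w with hV
  have hV0 : 0 < V := by positivity
  set g : ℝ := ((Fintype.card (Fin d → ZMod K) : ℕ) : ℝ) with hg
  have hg0 : 0 ≤ g / (2 * V) := by positivity
  refine ⟨⌊g / (2 * V)⌋₊, fun k => ?_⟩
  have m1 := Nat.lt_floor_add_one (g / (2 * V))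
  have m2 := Nat.floor_le hg0
  rw [div_lt_iff₀ (by positivity)] at m1
  rw [le_div_iff₀ (by positivity)] at m2
  have rep : ∀ a : Fin d → ZMod K, ∃ c, a ∈ (bl (pt h k) r).image (pr K) →
      pr K c = a ∧ ‖pt h k - pt h c‖ ≤ r := fun a => by
    by_cases ha : a ∈ (bl (pt h k) r).image (pr K)
    · obtain ⟨c, hc, e⟩ := mem_image.1 ha
      exact ⟨c, fun _ => ⟨e, by rw [norm_sub_rev]; exact (hbl _ _ _).1 hc⟩⟩
    · exact ⟨0, fun h => absurd h ha⟩
  choose rp hrp using rep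
  obtain ⟨S, hS, hc⟩ := config ((bl (pt h k) r).image (pr K))
    (fun a => (bl (pt h (rp a) + (3 / 2 : ℝ) • (pt h k - pt h (rp a))) ρ).image (pr K)) V hV0
    (fun a ha => image_subset_image fun c hc => (hbl _ _ _).2 (by
      have a1 := (hbl _ _ _).1 hc
      have a2 := (hrp a ha).2
      have e : pt h c - (pt h (rp a) + (3 / 2 : ℝ) • (pt h k - pt h (rp a))) =
          (pt h c - pt h k) - (1 / 2 : ℝ) • (pt h k - pt h (rp a)) := by module
      have a3 := norm_sub_le (pt h c - pt h k) ((1 / 2 : ℝ) • (pt h k - pt h (rp a)))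
      have e2 : ‖(1 / 2 : ℝ)‖ = 1 / 2 := by norm_num
      rw [norm_smul, e2] at a3
      rw [e]
      linarith))
    (fun a _ => by
      refine le_trans (Nat.cast_le.2 card_image_le) ?_
      rw [hV, le_div_iff₀ hw0]
      exact up _) ⌊g / (2 * V)⌋₊ (by linarith) (by linarith)
  refine ⟨S, fun ω hω => ?_, le_trans (mul_le_mul_of_nonneg_right ?_ (Nat.cast_nonneg _)) hc⟩
  · obtain ⟨i, hi, hj⟩ := hS ω hω
    obtain ⟨p1, p2⟩ := hrp _ hi
    refine ⟨rp (ω i), ⟨i, p1⟩, p2, ?_⟩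
    rintro c' ⟨j, hj'⟩ hne
    by_contra hn
    have b := bad p2 hr hρ0.le h1 (not_lt.1 hn)
    by_cases e : j = i
    · have a := sep hh (p1.trans (e ▸ hj').symm) hne
      have a3 := norm_add_le (pt h c' - pt h (rp (ω i)) - (3 / 2 : ℝ) • (pt h k - pt h (rp (ω i))))
        ((3 / 2 : ℝ) • (pt h k - pt h (rp (ω i))))
      have e2 : ‖(3 / 2 : ℝ)‖ = 3 / 2 := by norm_num
      rw [sub_add_cancel, norm_smul, e2] at a3
      linarith
    · refine hj j e (mem_image.2 ⟨c', (hbl _ _ _).2 ?_, hj'⟩)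
      rwa [← sub_sub]
  · rw [card_image_of_injOn]
    · have a := lo (pt h k)
      rw [hV, div_pow, div_div, div_le_div_iff₀ (by positivity) (by positivity)]
      have e : (r - δ) ^ d * (4 * ((ρ + δ) ^ d * u / w)) =
          ((r - δ) ^ d * u / w) * ((ρ + δ) ^ d * 4) := by ring
      rw [e]
      refine mul_le_mul_of_nonneg_right ?_ (by positivity)
      rwa [div_le_iff₀ hw0]
    · intro c hc c' hc' e
      by_contra hne
      have a := sep hh e (Ne.symm hne)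
      have a1 := (hbl _ _ _).1 (mem_coe.1 hc)
      have a2 := (hbl _ _ _).1 (mem_coe.1 hc')
      have a3 := norm_sub_le_norm_sub_add_norm_sub (pt h c') (pt h k) (pt h c)
      rw [norm_sub_rev] at a1
      linarith

theorem colour {c : ℝ} (hc : 3 * √3 / 2 < c) : ∃ d₀ : ℕ, ∀ d n : ℕ, d₀ ≤ d → c ^ d ≤ (n : ℝ) →
    ∃ col : E d → Fin n, ∀ x y, ‖x - y‖ = 1 → col x ≠ col y := by
  have s3 : (0 : ℝ) < √3 := by positivity
  have s3' : √3 ^ 2 = (3 : ℝ) := Real.sq_sqrt (by norm_num)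
  have s1 : (1.7 : ℝ) < √3 := by nlinarith
  have s2 : √3 < (1.8 : ℝ) := by nlinarith
  have hc0 : 0 < c := by linarith
  obtain ⟨M, hM⟩ := exists_nat_gt (max 100 ((3 * c + 4) / (c / 2 - 3 * √3 / 4)))
  have hM1 : (100 : ℝ) < M := (le_max_left _ _).trans_lt hM
  have hM2 := (le_max_right _ _).trans_lt hM
  have hM0 : (0 : ℝ) < M := by linarith
  rw [div_lt_iff₀ (by linarith)] at hM2
  obtain ⟨δ, hδ⟩ : ∃ δ : ℝ, δ = 1 / M := ⟨_, rfl⟩
  have hδM : δ * M = 1 := by rw [hδ]; field_simp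
  have hδ0 : 0 < δ := by rw [hδ]; positivity
  have hδ1 : δ ≤ 1 / 100 := by nlinarith
  have hδ2 : δ * (3 * c + 4) < c / 2 - 3 * √3 / 4 := by
    have := mul_lt_mul_of_pos_left hM2 hδ0
    rw [← mul_assoc, hδM] at this
    linarith
  obtain ⟨ρ, hρ⟩ : ∃ ρ : ℝ, ρ = 3 * √3 / 4 * (1 + 2 * δ) := ⟨_, rfl⟩
  have hρ1 : 1 ≤ ρ := by rw [hρ]; nlinarith
  have hρ2 : ρ ≤ 2 := by rw [hρ]; nlinarith
  have hρ3 : 27 * (1 + 2 * δ) ^ 2 ≤ 16 * ρ ^ 2 := by
    rw [hρ, mul_pow, div_pow, mul_pow, s3']; linarith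
  obtain ⟨q, hq⟩ : ∃ q : ℝ, q = (1 / 2 - 2 * δ - δ) / (ρ + δ) := ⟨_, rfl⟩
  have hq0 : 0 < q := by rw [hq]; exact div_pos (by linarith) (by linarith)
  have hq1 : q ≤ 1 := by rw [hq, div_le_one (by linarith)]; linarith
  have hb : 1 < c * q := by
    rw [hq, ← mul_div_assoc, one_lt_div (by linarith), hρ]; nlinarith
  have ev := (tendsto_pow_const_div_const_pow_of_one_lt 2 hb).eventually
    (gt_mem_nhds (show (0 : ℝ) < 1 / (16 * M) by positivity))
  obtain ⟨d₀, hd₀⟩ := eventually_atTop.1 ev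
  refine ⟨max d₀ 1, fun d n hd hn => ?_⟩
  have hd1 : 1 ≤ d := (le_max_right _ _).trans hd
  have hdR : (0 : ℝ) < d := by exact_mod_cast hd1
  have hMn : 0 < M := by exact_mod_cast hM0
  have big := hd₀ d ((le_max_left _ _).trans hd)
  rw [div_lt_div_iff₀ (by positivity) (by positivity)] at big
  have : NeZero (4 * M * d) := ⟨by positivity⟩
  have hh : 0 < δ / d := by positivity
  have hhd : δ / d * d ≤ δ := by rw [div_mul_cancel₀ _ hdR.ne']
  have hK : 4 ≤ δ / d * ((4 * M * d : ℕ) : ℝ) := by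
    push_cast
    have : δ / d * (4 * M * d) = 4 * (δ * M) := by field_simp
    rw [this, hδM]; norm_num
  obtain ⟨m, hm⟩ := many (d := d) (K := 4 * M * d) (s := 1 + 2 * δ) (r := 1 / 2 - 2 * δ) (ρ := ρ)
    hh hhd hδ0 hK (by linarith) (by linarith) (by linarith) (by linarith) hρ2 hρ3
  rw [← hq] at hm
  choose rp hrp using pr_surj (d := d) (4 * M * d)
  obtain ⟨ω, hω⟩ := cover (X := Fin d → ZMod (4 * M * d))
    (fun (ω : Fin (m + 1) → Fin d → ZMod (4 * M * d)) g =>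
      Good (δ / d) (1 + 2 * δ) (1 / 2 - 2 * δ) (4 * M * d) ω (rp g)) (q ^ d / 4) n
    (fun g => hm (rp g)) (by
      rw [Fintype.card_fun, ZMod.card, Fintype.card_fin]
      push_cast
      have a1 : q ^ d ≤ 1 := pow_le_one₀ hq0.le hq1
      have a2 : (1 - q ^ d / 4) ^ n ≤ Real.exp (-(q ^ d / 4)) ^ n :=
        pow_le_pow_left₀ (by linarith) (by linarith [Real.add_one_le_exp (-(q ^ d / 4))]) n
      have a3 : (4 * (M : ℝ) * d) ^ d ≤ Real.exp (4 * M * d) ^ d :=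
        pow_le_pow_left₀ (by positivity) (by linarith [Real.add_one_le_exp (4 * (M : ℝ) * d)]) d
      have a4 : (c * q) ^ d ≤ n * q ^ d := by
        rw [mul_pow]; exact mul_le_mul_of_nonneg_right hn (by positivity)
      refine (mul_le_mul a3 a2 (pow_nonneg (by linarith) n) (by positivity)).trans_lt ?_
      rw [← Real.exp_nat_mul, ← Real.exp_nat_mul, ← Real.exp_add, Real.exp_lt_one_iff]
      nlinarith)
  choose t ht using hω
  refine ⟨fun x => t (pr _ (kap (δ / d) x)), fun x y hxy e => ?_⟩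
  have gx := period (hrp _) (ht (pr _ (kap (δ / d) x)))
  have gy := period (hrp _) (ht (pr _ (kap (δ / d) y)))
  have e' : t (pr _ (kap (δ / d) x)) = t (pr _ (kap (δ / d) y)) := e
  rw [← e'] at gy
  have nx := (near hh x).trans hhd
  have ny := (near hh y).trans hhd
  rw [← dist_eq_norm] at nx ny hxy
  have t1 := dist_triangle4 x (pt (δ / d) (kap (δ / d) x)) (pt (δ / d) (kap (δ / d) y)) y
  have t2 := dist_triangle4 (pt (δ / d) (kap (δ / d) x)) x y (pt (δ / d) (kap (δ / d) y))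
  rw [dist_comm (pt (δ / d) (kap (δ / d) y)) y] at t1
  rw [dist_comm _ x] at t2
  rcases apart gx gy with a | a <;> rw [← dist_eq_norm] at a <;> linarith

theorem upper : ∀ c : ℝ, 3 * √3 / 2 < c → ∃ d₀ : ℕ, ∀ d n : ℕ, d₀ ≤ d → c ^ d ≤ (n : ℝ) →
    ∃ f : EuclideanSpace ℝ (Fin d) → EuclideanSpace ℝ (Fin n),
      (∀ x y, ‖x - y‖ = 1 → ‖f x - f y‖ = 1) ∧ ¬ ∀ x y, ‖f x - f y‖ = ‖x - y‖ := by
  intro c hc
  obtain ⟨d₀, h⟩ := colour hc
  refine ⟨max d₀ 1, fun d n hd hn => ?_⟩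
  obtain ⟨col, hcol⟩ := h d n ((le_max_left _ _).trans hd) hn
  have hd1 : 0 < d := (le_max_right _ _).trans hd
  have ha : (√2)⁻¹ ^ 2 = (1 / 2 : ℝ) := by
    rw [inv_pow, Real.sq_sqrt (by norm_num)]; norm_num
  have hn1 : ∀ i : Fin n, ‖(EuclideanSpace.single i (√2)⁻¹ : E n)‖ ^ 2 = 1 / 2 := fun i => by
    rw [EuclideanSpace.norm_single, Real.norm_eq_abs, sq_abs, ha]
  have key : ∀ i j : Fin n, i ≠ j →
      ‖(EuclideanSpace.single i (√2)⁻¹ : E n) - EuclideanSpace.single j (√2)⁻¹‖ = 1 := by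
    intro i j hij
    refine (pow_eq_one_iff_of_nonneg (norm_nonneg _) two_ne_zero).1 ?_
    rw [norm_sub_sq_real, hn1, hn1, EuclideanSpace.inner_single_left]
    simp [hij]
    norm_num
  refine ⟨fun x => EuclideanSpace.single (col x) (√2)⁻¹, fun x y hxy => key _ _ (hcol x y hxy),
    fun hall => ?_⟩
  have a := hall (EuclideanSpace.single ⟨0, hd1⟩ 2) 0
  rw [sub_zero, EuclideanSpace.norm_single] at a
  by_cases e : col (EuclideanSpace.single ⟨0, hd1⟩ 2) = col 0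
  · simp [e] at a
  · rw [key _ _ e] at a
    norm_num at a

end Pool.Agent.MP_66cee2_co.H94U
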